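import Pool.Agent.Lib.MP_eee7a8_ag.TB.A.H19.Strand

/-!
# TAGBR, group A: modules MFC2 and MFC3 (central strands)
-/

open Matrix

namespace Pool.Agent.Lib.MP_eee7a8_ag.TB.A.H19

open Pool.Agent.Lib.MP_eee7a8_ag.TB

/-- A strand crossing one side of a triangle and not ending at the opposite vertex crosses exactly
one of the other sides. -/
theorem tri_split {a c d p1 p2 : Cusp} (_hac : a ≠ c) (_had : a ≠ d) (_hcd : c ≠ d)
    (h : Cross p1 p2 c d) (h1 : p1 ≠ a) (h2 : p2 ≠ a) :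
    (Cross p1 p2 a c ∧ ¬ Cross p1 p2 a d) ∨ (¬ Cross p1 p2 a c ∧ Cross p1 p2 a d) := by
  simp only [cross_iff] at *
  grind

theorem cross_inf {c p x y : Cusp} : Cross x y c p ↔ Cross c p x y := cross_swap

theorem side_transfer {a c d p1 p2 s t : Cusp} (hac : a ≠ c) (hcd : c ≠ d)
    (hs : Cross s t c d) (hs' : Cross s t c a) (h3 : ¬ Cross s t p1 c) (h4 : ¬ Cross s t p2 c)
    (hp : Cross p1 p2 c d) : Cross p1 p2 c a := by
  obtain ⟨t', -, -, -, k4, -⟩ := coord c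
  have n1 := hs.ne
  have n2 := hp.ne
  have hsc : s ≠ c := by tauto
  have htc : t ≠ c := by tauto
  have hp1 : p1 ≠ c := by tauto
  have hp2 : p2 ≠ c := by tauto
  rw [cross_comm_right, cross_inf, k4 _ _ _ hp1 hsc htc] at h3
  rw [cross_comm_right, cross_inf, k4 _ _ _ hp2 hsc htc] at h4
  rw [cross_inf, k4 _ _ _ hcd.symm hsc htc] at hs
  rw [cross_inf, k4 _ _ _ hac hsc htc] at hs'
  rw [cross_inf, k4 _ _ _ hcd.symm hp1 hp2] at hp
  rw [cross_inf, k4 _ _ _ hac hp1 hp2]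
  grind

theorem side_far {a c d p1 p2 s t : Cusp} (had : a ≠ d) (hcd : c ≠ d)
    (hs : Cross s t c d) (hs' : Cross s t a d) (hp : Cross p1 p2 c d) (hp' : Cross p1 p2 a c)
    (hn : ¬ Cross p1 p2 s t) : ¬ Cross s t p1 c ∧ ¬ Cross s t p2 c := by
  obtain ⟨t', -, -, -, k4, k5⟩ := coord d
  have n1 := hs.ne
  have n2 := hp.ne
  have hsc : s ≠ d := by tauto
  have htc : t ≠ d := by tauto
  have hp1 : p1 ≠ d := by tauto
  have hp2 : p2 ≠ d := by tauto
  rw [cross_comm_right, cross_inf, k4 _ _ _ hcd hsc htc] at hs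
  rw [cross_comm_right, cross_inf, k4 _ _ _ had hsc htc] at hs'
  rw [cross_comm_right, cross_inf, k4 _ _ _ hcd hp1 hp2] at hp
  rw [k5 _ _ _ _ hp1 hp2 had hcd] at hp'
  rw [k5 _ _ _ _ hp1 hp2 hsc htc] at hn
  rw [k5 _ _ _ _ hsc htc hp1 hcd, k5 _ _ _ _ hsc htc hp2 hcd]
  clear k4 k5
  rcases hs with ⟨hs1, hs2⟩ | ⟨hs1, hs2⟩ <;> rcases hp with ⟨hq1, hq2⟩ | ⟨hq1, hq2⟩ <;>
    constructor <;> grind

variable {G : Subgroup SLZ} {κ : Type}

theorem split_lemma (Q : Fam κ) (c d : Cusp)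
    (hfin : {p : Cusp × Cusp | Q.E G p.1 p.2 ∧ Cross p.1 p.2 c d}.Finite)
    (P R : Cusp × Cusp → Prop)
    (h : ∀ p, Q.E G p.1 p.2 → Cross p.1 p.2 c d → (P p ∧ ¬ R p) ∨ (¬ P p ∧ R p)) :
    XQ G Q c d = Set.ncard {p : Cusp × Cusp | Q.E G p.1 p.2 ∧ Cross p.1 p.2 c d ∧ P p} +
      Set.ncard {p : Cusp × Cusp | Q.E G p.1 p.2 ∧ Cross p.1 p.2 c d ∧ R p} := by
  have hd : Disjoint {p : Cusp × Cusp | Q.E G p.1 p.2 ∧ Cross p.1 p.2 c d ∧ P p}
      {p : Cusp × Cusp | Q.E G p.1 p.2 ∧ Cross p.1 p.2 c d ∧ R p} := by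
    rw [Set.disjoint_left]
    rintro p ⟨h1, h2, h3⟩ ⟨-, -, h4⟩
    rcases h p h1 h2 with ⟨-, k⟩ | ⟨k, -⟩
    · exact k h4
    · exact k h3
  rw [← Set.ncard_union_eq hd (hfin.subset fun p hp => ⟨hp.1, hp.2.1⟩)
    (hfin.subset fun p hp => ⟨hp.1, hp.2.1⟩), XQ]
  congr 1
  ext p
  simp only [Set.mem_ofPred_eq, Set.mem_union]
  constructor
  · rintro ⟨h1, h2⟩
    rcases h p h1 h2 with ⟨k, -⟩ | ⟨-, k⟩
    · exact Or.inl ⟨h1, h2, k⟩
    · exact Or.inr ⟨h1, h2, k⟩
  · rintro (⟨h1, h2, -⟩ | ⟨h1, h2, -⟩) <;> exact ⟨h1, h2⟩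

theorem XQ_comm (Q : Fam κ) (c d : Cusp) : XQ G Q c d = XQ G Q d c := by
  unfold XQ
  congr 1
  ext p
  simp only [Set.mem_ofPred_eq]
  rw [cross_comm_right]

theorem YQ_comm (Q : Fam κ) (a b c d : Cusp) : YQ G Q a b c d = YQ G Q b a c d := by
  unfold YQ
  congr 1
  ext p
  simp only [Set.mem_ofPred_eq]
  rw [cross_comm_right]

theorem central_comm {Q : Fam κ} {M : ℕ} {s t c d : Cusp} (h : Central G Q M s t c d) :
    Central G Q M s t d c := ⟨h.1, cross_comm_right.1 h.2.1, h.2.2.2, h.2.2.1⟩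

/-- The strands on the near side are the same. -/
theorem NQ_eq (Q : Fam κ) {a c d s t : Cusp} (hac : a ≠ c) (hcd : c ≠ d)
    (hs : Cross s t c d) (hs' : Cross s t c a) : NQ G Q s t c d = NQ G Q s t c a := by
  unfold NQ
  congr 1
  ext p
  simp only [Set.mem_ofPred_eq, side_iff]
  constructor
  · rintro ⟨h1, h2, h3, h4, h5⟩
    exact ⟨h1, side_transfer hac hcd hs hs' h3 h4 h2, h3, h4, h5⟩
  · rintro ⟨h1, h2, h3, h4, h5⟩
    exact ⟨h1, side_transfer hcd.symm hac.symm hs' hs h3 h4 h2, h3, h4, h5⟩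

theorem mfc2_aux (hf : FamFinStatement) (h1 : Mfc1Statement) [Finite κ] (Q : Fam κ)
    (hQ : Q.NonCross G) (M : ℕ) (a c d : Cusp) (hac : a ≠ c) (had : a ≠ d) (hcd : c ≠ d)
    (e1 : XQ G Q c d = M) (e3 : XQ G Q a d ≤ M)
    (s1 : ∀ s t, Q.E G s t → Cross s t c d → s ≠ a) (s2 : ∀ s t, Q.E G s t → Cross s t a c → s ≠ d)
    (s3 : ∀ s t, Q.E G s t → Cross s t a d → s ≠ c) (e2 : XQ G Q a c = M)
    (e4 : YQ G Q c d a d ≤ YQ G Q c d a c) (s t : Cusp) (hst : Central G Q M s t c d) :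
    (XQ G Q a c = M ∧ Central G Q M s t a c) ∨ (XQ G Q a d = M ∧ Central G Q M s t a d) := by
  obtain ⟨hE, hX, hN1, hN2⟩ := hst
  have hsa : s ≠ a := s1 s t hE hX
  have hta : t ≠ a := s1 t s hE.symm (cross_comm_left.1 hX)
  have n1 := (h1 G κ Q hQ c d hcd).1 s t hE hX
  rcases tri_split hac had hcd hX hsa hta with ⟨k1, k2⟩ | ⟨k1, k2⟩
  · left
    have n2 := (h1 G κ Q hQ a c hac).1 s t hE k1
    have n3 := NQ_eq (G := G) Q hac hcd hX (cross_comm_right.1 k1)
    refine ⟨e2, hE, k1, ?_, ?_⟩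
    · omega
    · omega
  · right
    -- `M = x + y`
    have x1 : XQ G Q c d = YQ G Q c d a c + YQ G Q c d a d :=
      split_lemma Q c d (fin_of hf Q c d) (fun p => Cross p.1 p.2 a c)
        (fun p => Cross p.1 p.2 a d) (by
          rintro ⟨p1, p2⟩ hp1 hp2
          exact tri_split hac had hcd hp2 (s1 _ _ hp1 hp2)
            (s1 _ _ hp1.symm (cross_comm_left.1 hp2)))
    have x2 : XQ G Q a c = YQ G Q c d a c + YQ G Q a c a d := by
      have := split_lemma Q a c (fin_of hf (G := G) Q a c) (fun p => Cross p.1 p.2 c d)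
        (fun p => Cross p.1 p.2 a d) (by
          rintro ⟨p1, p2⟩ hp1 hp2
          have := tri_split (a := d) had.symm hcd.symm hac hp2 (s2 _ _ hp1 hp2)
            (s2 _ _ hp1.symm (cross_comm_left.1 hp2))
          simp only at hp2 this ⊢
          rw [cross_comm_right (c := d) (d := a), cross_comm_right (c := d) (d := c)] at this
          tauto)
      rw [this]
      congr 1
      · unfold YQ
        congr 1
        ext p
        simp only [Set.mem_ofPred_eq]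
        tauto
    have x3 : XQ G Q a d = YQ G Q c d a d + YQ G Q a c a d := by
      have := split_lemma Q a d (fin_of hf (G := G) Q a d) (fun p => Cross p.1 p.2 c d)
        (fun p => Cross p.1 p.2 a c) (by
          rintro ⟨p1, p2⟩ hp1 hp2
          have := tri_split (a := c) hac.symm hcd had hp2 (s3 _ _ hp1 hp2)
            (s3 _ _ hp1.symm (cross_comm_left.1 hp2))
          simp only at hp2 this ⊢
          rw [cross_comm_right (c := c) (d := a)] at this
          tauto)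
      rw [this]
      congr 1
      · unfold YQ
        congr 1
        ext p
        simp only [Set.mem_ofPred_eq]
        tauto
      · unfold YQ
        congr 1
        ext p
        simp only [Set.mem_ofPred_eq]
        tauto
    -- all strands crossing `ac` and `cd` are on the `c`-side
    have x4 : YQ G Q c d a c ≤ NQ G Q s t c d := by
      unfold YQ NQ
      apply Set.ncard_le_ncard
      · rintro ⟨p1, p2⟩ ⟨m1, m2, m3⟩
        simp only at m1 m2 m3
        have := side_far had hcd hX k2 m2 m3 (hQ.nocross _ _ _ _ m1 hE)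
        simp only [Set.mem_ofPred_eq, side_iff]
        refine ⟨m1, m2, this.1, this.2, ?_, ?_⟩
        · intro e
          obtain ⟨rfl, rfl⟩ := Prod.mk.inj e
          exact k1 m3
        · intro e
          obtain ⟨rfl, rfl⟩ := Prod.mk.inj e
          exact k1 (cross_comm_left.1 m3)
      · exact (fin_of hf (G := G) Q c d).subset fun p hp => ⟨hp.1, hp.2.1⟩
    have e5 : XQ G Q a d = M := by omega
    have n2 := (h1 G κ Q hQ a d had).1 s t hE k2
    have n3 := NQ_eq (G := G) Q had hcd.symm (cross_comm_right.1 hX) (cross_comm_right.1 k2)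
    refine ⟨e5, hE, k2, ?_, ?_⟩
    · omega
    · omega

/-- MFC2: propagation of central strands. -/
theorem mfc2 (hf : FamFinStatement) (h1 : Mfc1Statement) : Mfc2Statement := by
  intro G κ _ Q hQ M a c d hac had hcd e1 e2 e3 hsh s t hst
  obtain ⟨s1, s2, s3, h⟩ := hsh
  rcases h with ⟨e4, e5⟩ | ⟨e4, e5⟩
  · exact mfc2_aux hf h1 Q hQ M a c d hac had hcd e1 e3 s1 s2 s3 e4 e5 s t hst
  · refine (mfc2_aux hf h1 Q hQ M a d c had hac hcd.symm ((XQ_comm Q d c).trans e1) e2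
      (fun s t h h' => s1 s t h (cross_comm_right.1 h')) s3 s2 e4 ?_ s t
      (central_comm hst)).symm
    rw [YQ_comm Q d c, YQ_comm Q d c]
    exact e5

/-- MFC3: there is a maximal edge whose flip has fewer crossings. -/
theorem mfc3 (hf : FamFinStatement) (hb : MfbStatement) (h1 : Mfc1Statement)
    (h2 : Mfc2Statement) : Mfc3Statement := by
  intro G ι κ _ _ T Q hT hQ M hM hmax hex
  by_contra hcon
  push Not at hcon
  obtain ⟨c0, d0, hE0, hX0⟩ := hex
  obtain ⟨s, t, hst⟩ := (h1 G κ Q hQ c0 d0 (hT.toNonCross.ne' hE0)).2 (by omega)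
  rw [hX0] at hst
  obtain ⟨x, -, -, -, -, k5⟩ := coord s
  set Z := {p : Cusp × Cusp | T.E G p.1 p.2 ∧ Cross p.1 p.2 s t ∧ XQ G Q p.1 p.2 = M ∧
    Central G Q M s t p.1 p.2} with hZ
  have hZfin : Z.Finite := (fin_of hf (G := G) T s t).subset fun p hp => ⟨hp.1, hp.2.1⟩
  have hZne : Z.Nonempty := ⟨(c0, d0), hE0, cross_swap.1 hst.2.1, hX0, hst⟩
  obtain ⟨⟨c, d⟩, ⟨hE, hC, hX, hc⟩, hmin⟩ :=
    Set.exists_min_image Z (fun p => |x p.1 - x p.2|) hZfin hZne
  simp only at hE hC hX hc hmin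
  obtain ⟨a, f, e1, e2, e3, e4, e5⟩ := hT.tri c d hE
  have hcd := hT.toNonCross.ne' hE
  -- both shapes
  have shape : ∀ a f, T.E G a c → T.E G a d → T.E G f c → T.E G f d → Cross a f c d →
      Shape G Q M a c d := by
    intro a f e1 e2 e3 e4 e5
    have h3 := hb G κ Q hQ M a f c d hM e5 hX (hmax _ _ e1) (hmax _ _ e2) (hmax _ _ e3) (hmax _ _ e4)
    exact h3.2 (le_antisymm h3.1 (hcon a f c d hE e1 e2 e3 e4 e5 hX))
  have step : ∀ a, T.E G a c → T.E G a d → Shape G Q M a c d →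
      ((x c < x a ∧ x a < x d) ∨ (x d < x a ∧ x a < x c)) → False := by
    intro a e1 e2 hsh hx
    rcases h2 G κ Q hQ M a c d (hT.toNonCross.ne' e1) (hT.toNonCross.ne' e2) hcd hX (hmax _ _ e1)
      (hmax _ _ e2) hsh s t hc with ⟨m1, m2⟩ | ⟨m1, m2⟩
    · have := hmin (a, c) ⟨e1, cross_swap.1 m2.2.1, m1, m2⟩
      simp only at this
      rcases hx with ⟨hx1, hx2⟩ | ⟨hx1, hx2⟩
      · rw [abs_of_neg (by linarith), abs_of_pos (by linarith)] at this
        linarith
      · rw [abs_of_pos (by linarith), abs_of_neg (by linarith)] at this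
        linarith
    · have := hmin (a, d) ⟨e2, cross_swap.1 m2.2.1, m1, m2⟩
      simp only at this
      rcases hx with ⟨hx1, hx2⟩ | ⟨hx1, hx2⟩
      · rw [abs_of_neg (by linarith), abs_of_neg (by linarith)] at this
        linarith
      · rw [abs_of_pos (by linarith), abs_of_pos (by linarith)] at this
        linarith
  have sa := shape a f e1 e2 e3 e4 e5
  have sf := shape f a e3 e4 e1 e2 (cross_comm_left.1 e5)
  have n1 : a ≠ s := (sa.1 s t hc.1 hc.2.1).symm
  have n2 : f ≠ s := (sf.1 s t hc.1 hc.2.1).symm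
  have n3 := hC.ne
  have n4 : c ≠ s := by tauto
  have n5 : d ≠ s := by tauto
  rw [k5 a f c d n1 n2 n4 n5] at e5
  have hsa := step a e1 e2 sa
  have hsf := step f e3 e4 sf
  clear k5 hmin shape step
  grind

end Pool.Agent.Lib.MP_eee7a8_ag.TB.A.H19
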