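import Pool.Agent.Lib.MP_eee7a8_ag.TB.IfaceA
import Pool.Agent.Lib.MP_eee7a8_ag.TB.A.Coord

/-!
# TAGBR, group A: the order of the strands crossing a segment; modules MFB and MFC1

The strands crossing `cd` are ordered by the width of their coordinates at `d`.
-/

open Matrix

namespace Pool.Agent.Lib.MP_eee7a8_ag.TB.A.H19

open Pool.Agent.Lib.MP_eee7a8_ag.TB

theorem side_iff {s t x c : Cusp} :
    0 ≤ (dt s x * dt t x) * (dt s c * dt t c) ↔ ¬ Cross s t x c := by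
  unfold Cross; exact not_lt.symm

/-- MFB: arithmetic. -/
theorem mfb (h : MfbgStatement) : MfbStatement := by
  intro G κ _ Q hQ M a f c d hM hx hcd hac had hfc hfd
  have hE : ¬ Q.E G c d := by
    intro hE
    have h0 : XQ G Q c d = 0 := by
      unfold XQ
      have : {p : Cusp × Cusp | Q.E G p.1 p.2 ∧ Cross p.1 p.2 c d} = ∅ := by
        ext p
        simp only [Set.mem_ofPred_eq, Set.mem_empty_iff_false, iff_false]
        rintro ⟨h1, h2⟩
        exact hQ.nocross _ _ _ _ h1 hE h2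
      rw [this, Set.ncard_empty]
    omega
  obtain ⟨na, nc, nf, nd, P, P', A1, A2, F1, F2, C1, C2, D1, D2, AF, e1, e2, e3, e4, e5, e6, e7,
    e8, e9, e10, s1, s2, s3, p1, p2, p3, p4, p5, p6, p7, p8, p9, p10, p11⟩ :=
    h G κ Q hQ a f c d hx hE
  have key : XQ G Q a f ≤ M ∧ (XQ G Q a f = M → (A1 + A2 + AF = 0 ∧ D1 = 0 ∧ C2 = 0) ∧
      ((XQ G Q a c = M ∧ YQ G Q c d a d ≤ YQ G Q c d a c) ∨
        (XQ G Q a d = M ∧ YQ G Q c d a c ≤ YQ G Q c d a d))) := by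
    rw [e2, e3, e6, e7, e8]
    rw [e1] at hcd
    rw [e3] at hac
    rw [e6] at had
    rw [e4] at hfc
    rw [e5] at hfd
    clear e1 e2 e3 e4 e5 e6 e7 e8 e9 e10 s1 s2 s3
    rcases p1 with rfl | p1
    · rcases p2 with rfl | p2
      · rcases p3 with rfl | p3
        · rcases p4 with rfl | p4
          · rcases p5 with rfl | p5
            · rcases p6 with rfl | p6 <;> rcases p7 with rfl | p7 <;> omega
            · rcases p6 with rfl | p6 <;> rcases p7 with rfl | p7 <;> omega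
          · rcases p5 with rfl | p5 <;> rcases p6 with rfl | p6 <;> rcases p7 with rfl | p7 <;>
              omega
        · rcases p4 with rfl | p4 <;> rcases p5 with rfl | p5 <;> rcases p6 with rfl | p6 <;>
            rcases p7 with rfl | p7 <;> omega
      · rcases p4 with rfl | p4 <;> rcases p6 with rfl | p6 <;> omega
    · rcases p5 with rfl | p5 <;> rcases p7 with rfl | p7 <;> omega
  refine ⟨key.1, fun he => ?_⟩
  obtain ⟨⟨k1, k2, k3⟩, k4⟩ := key.2 he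
  exact ⟨s1 k1, s2 k2, s3 k3, k4⟩

/-- The strands crossing `cd` are ordered by a rational number. -/
theorem order_lemma {c d : Cusp} (hcd : c ≠ d) : ∃ w : Cusp × Cusp → ℚ,
    ∀ p q : Cusp × Cusp, Cross p.1 p.2 c d → Cross q.1 q.2 c d → ¬ Cross p.1 p.2 q.1 q.2 →
      ((¬ Cross q.1 q.2 p.1 c ∧ ¬ Cross q.1 q.2 p.2 c) ↔ w p ≤ w q) ∧
      ((¬ Cross q.1 q.2 p.1 d ∧ ¬ Cross q.1 q.2 p.2 d) ↔ w q ≤ w p) ∧
      (w p = w q ↔ (p = q ∨ p = q.swap)) := by
  obtain ⟨t, hinj, -, -, h4, h5⟩ := coord d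
  refine ⟨fun p => |t p.1 - t p.2|, ?_⟩
  rintro ⟨p1, p2⟩ ⟨q1, q2⟩ hp hq hpq
  simp only at hp hq hpq ⊢
  have np := hp.ne
  have nq := hq.ne
  have ep : (t p1 < t c ∧ t c < t p2) ∨ (t p2 < t c ∧ t c < t p1) :=
    (h4 c p1 p2 hcd (by tauto) (by tauto)).1 (cross_swap.1 (cross_comm_right.1 hp))
  have eq : (t q1 < t c ∧ t c < t q2) ∨ (t q2 < t c ∧ t c < t q1) :=
    (h4 c q1 q2 hcd (by tauto) (by tauto)).1 (cross_swap.1 (cross_comm_right.1 hq))
  have hp1 : p1 ≠ d := by tauto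
  have hp2 : p2 ≠ d := by tauto
  have hq1 : q1 ≠ d := by tauto
  have hq2 : q2 ≠ d := by tauto
  rw [h5 p1 p2 q1 q2 hp1 hp2 hq1 hq2] at hpq
  rw [h5 q1 q2 p1 c hq1 hq2 hp1 hcd, h5 q1 q2 p2 c hq1 hq2 hp2 hcd]
  have e1 : Cross q1 q2 p1 d ↔ (t q1 < t p1 ∧ t p1 < t q2) ∨ (t q2 < t p1 ∧ t p1 < t q1) := by
    rw [← h4 p1 q1 q2 hp1 hq1 hq2]
    constructor
    · intro h; exact cross_swap.1 (cross_comm_right.1 h)
    · intro h; exact cross_comm_right.1 (cross_swap.1 h)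
  have e2 : Cross q1 q2 p2 d ↔ (t q1 < t p2 ∧ t p2 < t q2) ∨ (t q2 < t p2 ∧ t p2 < t q1) := by
    rw [← h4 p2 q1 q2 hp2 hq1 hq2]
    constructor
    · intro h; exact cross_swap.1 (cross_comm_right.1 h)
    · intro h; exact cross_comm_right.1 (cross_swap.1 h)
  rw [e1, e2]
  have e3 : ((p1, p2) = (q1, q2) ∨ (p1, p2) = (q1, q2).swap) ↔
      ((t p1 = t q1 ∧ t p2 = t q2) ∨ (t p1 = t q2 ∧ t p2 = t q1)) := by
    constructor
    · rintro (h | h)
      · simp only [Prod.mk.injEq] at h; left; rw [h.1, h.2]; exact ⟨rfl, rfl⟩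
      · simp only [Prod.swap_prod_mk, Prod.mk.injEq] at h; right; rw [h.1, h.2]; exact ⟨rfl, rfl⟩
    · rintro (⟨h, h'⟩ | ⟨h, h'⟩)
      · left; rw [hinj _ _ hp1 hq1 h, hinj _ _ hp2 hq2 h']
      · right; rw [hinj _ _ hp1 hq2 h, hinj _ _ hp2 hq1 h']; rfl
  rw [e3]
  generalize t p1 = x1 at *
  generalize t p2 = x2 at *
  generalize t q1 = y1 at *
  generalize t q2 = y2 at *
  generalize t c = z at *
  clear e1 e2 e3 h4 h5 hinj
  rcases ep with ⟨ep1, ep2⟩ | ⟨ep1, ep2⟩ <;> rcases eq with ⟨eq1, eq2⟩ | ⟨eq1, eq2⟩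
  · rw [abs_of_neg (show x1 - x2 < 0 by linarith), abs_of_neg (show y1 - y2 < 0 by linarith)]
    refine ⟨⟨?_, ?_⟩, ⟨?_, ?_⟩, ⟨?_, ?_⟩⟩ <;> grind
  · rw [abs_of_neg (show x1 - x2 < 0 by linarith), abs_of_pos (show 0 < y1 - y2 by linarith)]
    refine ⟨⟨?_, ?_⟩, ⟨?_, ?_⟩, ⟨?_, ?_⟩⟩ <;> grind
  · rw [abs_of_pos (show 0 < x1 - x2 by linarith), abs_of_neg (show y1 - y2 < 0 by linarith)]
    refine ⟨⟨?_, ?_⟩, ⟨?_, ?_⟩, ⟨?_, ?_⟩⟩ <;> grind
  · rw [abs_of_pos (show 0 < x1 - x2 by linarith), abs_of_pos (show 0 < y1 - y2 by linarith)]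
    refine ⟨⟨?_, ?_⟩, ⟨?_, ?_⟩, ⟨?_, ?_⟩⟩ <;> grind

/-- A median. -/
theorem median {α : Type*} (S : Finset α) (hS : S.Nonempty) (w : α → ℚ) : ∃ s ∈ S,
    2 * (S.filter (fun p => w p < w s)).card ≤ S.card ∧
    2 * (S.filter (fun p => w s < w p)).card ≤ S.card := by
  classical
  set F := S.filter (fun s => S.card ≤ 2 * (S.filter (fun p => w p ≤ w s)).card) with hF
  have hne : F.Nonempty := by
    obtain ⟨m, hm, hmax⟩ := S.exists_max_image w hS
    refine ⟨m, Finset.mem_filter.2 ⟨hm, ?_⟩⟩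
    rw [Finset.filter_true_of_mem hmax]
    omega
  obtain ⟨s, hs, hmin⟩ := F.exists_min_image w hne
  obtain ⟨hsS, hs2⟩ := Finset.mem_filter.1 hs
  refine ⟨s, hsS, ?_, ?_⟩
  · by_contra hc
    push Not at hc
    have hne' : (S.filter (fun p => w p < w s)).Nonempty := by
      rw [← Finset.card_pos]; omega
    obtain ⟨m, hm, hmax⟩ := (S.filter (fun p => w p < w s)).exists_max_image w hne'
    obtain ⟨hmS, hm2⟩ := Finset.mem_filter.1 hm
    have hsub : (S.filter (fun p => w p < w s)).card ≤ (S.filter (fun p => w p ≤ w m)).card := by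
      apply Finset.card_le_card
      intro x hx
      exact Finset.mem_filter.2 ⟨(Finset.mem_filter.1 hx).1, hmax x hx⟩
    have := hmin m (Finset.mem_filter.2 ⟨hmS, by omega⟩)
    linarith
  · have e := Finset.card_filter_add_card_filter_not (s := S) (fun p => w p ≤ w s)
    have e2 : S.filter (fun p => ¬ w p ≤ w s) = S.filter (fun p => w s < w p) := by
      ext x; simp only [Finset.mem_filter, not_le]
    rw [e2] at e
    omega

variable {G : Subgroup SLZ} {κ : Type}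

theorem fin_of (hf : FamFinStatement) [Finite κ] (Q : Fam κ) (c d : Cusp) :
    {p : Cusp × Cusp | Q.E G p.1 p.2 ∧ Cross p.1 p.2 c d}.Finite := by
  have := Fintype.ofFinite κ
  exact hf G κ Q c d

/-- The numbers of strands in terms of the order. -/
theorem count_lemma (Q : Fam κ) (hQ : Q.NonCross G) {c d : Cusp} (S : Finset (Cusp × Cusp))
    (hS : ∀ p, p ∈ S ↔ Q.E G p.1 p.2 ∧ Cross p.1 p.2 c d) (w : Cusp × Cusp → ℚ)
    (hw : ∀ p q : Cusp × Cusp, Cross p.1 p.2 c d → Cross q.1 q.2 c d → ¬ Cross p.1 p.2 q.1 q.2 →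
      ((¬ Cross q.1 q.2 p.1 c ∧ ¬ Cross q.1 q.2 p.2 c) ↔ w p ≤ w q) ∧
      ((¬ Cross q.1 q.2 p.1 d ∧ ¬ Cross q.1 q.2 p.2 d) ↔ w q ≤ w p) ∧
      (w p = w q ↔ (p = q ∨ p = q.swap))) :
    XQ G Q c d = S.card ∧ ∀ q ∈ S,
      NQ G Q q.1 q.2 c d = (S.filter (fun p => w p < w q)).card ∧
      NQ G Q q.1 q.2 d c = (S.filter (fun p => w q < w p)).card := by
  classical
  refine ⟨?_, fun q hq => ⟨?_, ?_⟩⟩
  · rw [XQ, ← Set.ncard_coe_finset]
    congr 1
    ext p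
    simp only [Set.mem_ofPred_eq, Finset.mem_coe, hS]
  · rw [NQ, ← Set.ncard_coe_finset]
    congr 1
    ext p
    simp only [Set.mem_ofPred_eq, Finset.mem_coe, Finset.mem_filter, hS, side_iff]
    obtain ⟨hq1, hq2⟩ := (hS q).1 hq
    constructor
    · rintro ⟨h1, h2, h3, h4, h5, h6⟩
      refine ⟨⟨h1, h2⟩, ?_⟩
      obtain ⟨k1, k2, k3⟩ := hw p q h2 hq2 (hQ.nocross _ _ _ _ h1 hq1)
      refine lt_of_le_of_ne (k1.1 ⟨h3, h4⟩) ?_
      intro he
      rcases k3.1 he with e | e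
      · exact h5 e
      · exact h6 e
    · rintro ⟨⟨h1, h2⟩, h3⟩
      obtain ⟨k1, k2, k3⟩ := hw p q h2 hq2 (hQ.nocross _ _ _ _ h1 hq1)
      have h4 := k1.2 h3.le
      refine ⟨h1, h2, h4.1, h4.2, ?_, ?_⟩
      · intro e; exact absurd (k3.2 (Or.inl e)) h3.ne
      · intro e; exact absurd (k3.2 (Or.inr e)) h3.ne
  · rw [NQ, ← Set.ncard_coe_finset]
    congr 1
    ext p
    simp only [Set.mem_ofPred_eq, Finset.mem_coe, Finset.mem_filter, hS, side_iff]
    obtain ⟨hq1, hq2⟩ := (hS q).1 hq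
    constructor
    · rintro ⟨h1, h2, h3, h4, h5, h6⟩
      have h2' := cross_comm_right.1 h2
      refine ⟨⟨h1, h2'⟩, ?_⟩
      obtain ⟨k1, k2, k3⟩ := hw p q h2' hq2 (hQ.nocross _ _ _ _ h1 hq1)
      refine lt_of_le_of_ne (k2.1 ⟨h3, h4⟩) ?_
      intro he
      rcases k3.1 he.symm with e | e
      · exact h5 e
      · exact h6 e
    · rintro ⟨⟨h1, h2⟩, h3⟩
      obtain ⟨k1, k2, k3⟩ := hw p q h2 hq2 (hQ.nocross _ _ _ _ h1 hq1)
      have h4 := k2.2 h3.le
      refine ⟨h1, cross_comm_right.1 h2, h4.1, h4.2, ?_, ?_⟩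
      · intro e; exact absurd (k3.2 (Or.inl e)) h3.ne'
      · intro e; exact absurd (k3.2 (Or.inr e)) h3.ne'

/-- MFC1: central strands exist. -/
theorem mfc1 (hf : FamFinStatement) : Mfc1Statement := by
  classical
  intro G κ _ Q hQ c d hcd
  obtain ⟨w, hw⟩ := order_lemma hcd
  set S := (fin_of hf (G := G) Q c d).toFinset with hSdef
  have hS : ∀ p, p ∈ S ↔ Q.E G p.1 p.2 ∧ Cross p.1 p.2 c d := by
    intro p
    rw [hSdef, Set.Finite.mem_toFinset]
    rfl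
  obtain ⟨hX, hN⟩ := count_lemma Q hQ S hS w hw
  refine ⟨?_, ?_⟩
  · intro s t h1 h2
    have hq : (s, t) ∈ S := (hS _).2 ⟨h1, h2⟩
    obtain ⟨hN1, hN2⟩ := hN (s, t) hq
    rw [hX, hN1, hN2]
    have e1 := Finset.card_filter_add_card_filter_not (s := S) (fun p => w p < w (s, t))
    have e2 := Finset.card_filter_add_card_filter_not (s := S.filter (fun p => ¬ w p < w (s, t)))
      (fun p => w (s, t) < w p)
    have e3 : (S.filter (fun p => ¬ w p < w (s, t))).filter (fun p => w (s, t) < w p) =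
        S.filter (fun p => w (s, t) < w p) := by
      ext p
      simp only [Finset.mem_filter]
      constructor
      · rintro ⟨⟨k1, k2⟩, k3⟩; exact ⟨k1, k3⟩
      · rintro ⟨k1, k2⟩; exact ⟨⟨k1, not_lt.2 k2.le⟩, k2⟩
    have e4 : (S.filter (fun p => ¬ w p < w (s, t))).filter (fun p => ¬ w (s, t) < w p) =
        {(s, t), (t, s)} := by
      ext p
      simp only [Finset.mem_filter, Finset.mem_insert, Finset.mem_singleton]
      constructor
      · rintro ⟨⟨k1, k2⟩, k3⟩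
        obtain ⟨m1, m2⟩ := (hS p).1 k1
        exact (hw p (s, t) m2 h2 (hQ.nocross _ _ _ _ m1 h1)).2.2.1 (by linarith)
      · intro k
        have kS : p ∈ S := by
          rcases k with rfl | rfl
          · exact hq
          · exact (hS _).2 ⟨h1.symm, cross_comm_left.1 h2⟩
        obtain ⟨m1, m2⟩ := (hS p).1 kS
        have := (hw p (s, t) m2 h2 (hQ.nocross _ _ _ _ m1 h1)).2.2.2 k
        exact ⟨⟨kS, by linarith⟩, by linarith⟩
    have e5 : ({(s, t), (t, s)} : Finset (Cusp × Cusp)).card = 2 := by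
      apply Finset.card_pair
      intro e
      exact hQ.ne' h1 (Prod.mk.inj e).1
    rw [e3, e4, e5] at e2
    omega
  · intro hpos
    have hne : S.Nonempty := by rw [← Finset.card_pos, ← hX]; exact hpos
    obtain ⟨⟨s, t⟩, hs, m1, m2⟩ := median S hne w
    obtain ⟨hN1, hN2⟩ := hN (s, t) hs
    obtain ⟨h1, h2⟩ := (hS _).1 hs
    refine ⟨s, t, h1, h2, ?_, ?_⟩
    · rw [hX, hN1]; exact m1
    · rw [hX, hN2]; exact m2

end Pool.Agent.Lib.MP_eee7a8_ag.TB.A.H19
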